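import Pool.Agent.GT33.Main
import Pool.Agent.GT33.Res

/-!
# Trees and co-trees of maximum degree three (Grünbaum)

Every finite 3-connected plane graph has a spanning tree of maximum degree at most three whose co-tree has
maximum degree at most three.
-/

universe u

theorem Pool.Agent.Results.MP_991639_co.TreeCotree33.result {V : Type u} [Finite V]
    (G : SimpleGraph V) (hG : GT33.ThreeConnected G) (R : GT33.Rotation G) (hR : R.Plane) :
    ∃ T : SimpleGraph V, T ≤ G ∧ T.IsTree ∧ (R.coTree T).IsTree ∧
      (∀ v, (T.neighborSet v).ncard ≤ 3) ∧ (∀ f, ((R.coTree T).neighborSet f).ncard ≤ 3) ∧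
      ∀ f : R.Face, {d : G.Dart | R.face d = f ∧ d.edge ∉ T.edgeSet}.ncard ≤ 3 :=
  (GT33.tree33 hG R hR).explicit
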